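import Pool.Agent.Run7.h428.NF.Stm

/-!
# Project NF15, piece CNT: the points over the finite fields with `p` or `p ^ 2` elements
-/

set_option autoImplicit false
set_option linter.unusedSectionVars false
set_option linter.unusedVariables false

namespace Run7.h803.NF

open Polynomial Finset WeierstrassCurve
open Pool.Agent.H341R2.Sharp
open Pool.Agent.H82R3.EK (luc luc_eq card_points)
open W165.CE (T_luc A_two_split q_natDegree natDegree_q coeff_two_q)
open Pool.Agent.W97.MT (ap affCount)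
open Pool.Agent.Y698 (AP)
open Run7.h555.P15 (WT pts_cubic equation_iff coeffs three_pts one_pt)

/-- the cubic `X (X - 9 d) (X - 25 d)` -/
noncomputable def cb {F : Type} [Field F] (d : F) : F[X] :=
  (X - C 0) * (X ^ 2 + C (-(34 * d)) * X + C (225 * d ^ 2))

section
variable {F : Type} [Field F] [Fintype F] [DecidableEq F]

lemma cb_deg (d : F) : (cb d).natDegree = 3 := q_natDegree _ _ _

lemma cb_monic (d : F) : (cb d).Monic := by
  refine (monic_X_sub_C 0).mul ?_
  unfold Polynomial.Monic Polynomial.leadingCoeff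
  rw [natDegree_q, coeff_two_q]

omit [Fintype F] [DecidableEq F] in
lemma aeval_cb {E : Type} [Field E] [Algebra F E] (d : F) (x : E) :
    aeval x (cb d) = x * (x - 9 * algebraMap F E d) * (x - 25 * algebraMap F E d) := by
  unfold cb
  simp only [map_mul, map_sub, map_add, map_pow, aeval_X, aeval_C, map_zero, map_neg, map_ofNat]
  ring

lemma A_cb (hF : ringChar F ≠ 2) (d : F) (hd : d ≠ 0) (h15 : (15 : F) ≠ 0) :
    A (cb d) 2 = Fintype.card F := by
  have h2 : (2 : F) ≠ 0 := Ring.two_ne_zero hF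
  refine A_two_split hF 0 _ _ ?_ ?_
  · rw [show (0 : F) ^ 2 + -(34 * d) * 0 + 225 * d ^ 2 = 15 ^ 2 * d ^ 2 by ring]
    exact mul_ne_zero (pow_ne_zero _ h15) (pow_ne_zero _ hd)
  · rw [show (-(34 * d)) ^ 2 - 4 * (225 * d ^ 2) = 2 ^ 8 * d ^ 2 by ring]
    exact mul_ne_zero (pow_ne_zero _ h2) (pow_ne_zero _ hd)

end

/-- the number of points over an extension of the prime field -/
theorem cnt_odd {p : ℕ} [Fact p.Prime] (hp2 : p ≠ 2) (D : ℤ) (hD : ¬ (p : ℤ) ∣ 15 * D)
    {k : Type} [Field k] [Fintype k] [Algebra (ZMod p) k] :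
    (Fintype.card k : ℤ) - Nat.card {x : k × k // x.2 ^ 2 = x.1 * (x.1 - 9 * D) * (x.1 - 25 * D)} =
      luc ((p : ℤ) - Nat.card {x : ZMod p × ZMod p //
        x.2 ^ 2 = x.1 * (x.1 - 9 * D) * (x.1 - 25 * D)}) p (Module.finrank (ZMod p) k) := by
  classical
  have hF : ringChar (ZMod p) ≠ 2 := by
    rw [ZMod.ringChar_zmod_n]; exact hp2
  have hd : (D : ZMod p) ≠ 0 := by
    intro h
    apply hD
    rw [ZMod.intCast_zmod_eq_zero_iff_dvd] at h
    exact h.mul_left 15
  have h15 : (15 : ZMod p) ≠ 0 := by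
    intro h
    apply hD
    have h1 : ((15 : ℤ) : ZMod p) = 0 := by exact_mod_cast h
    rw [ZMod.intCast_zmod_eq_zero_iff_dvd] at h1
    exact h1.mul_right D
  have key : ∀ {E : Type} [Field E] [Fintype E] [Algebra (ZMod p) E] [DecidableEq E],
      (Fintype.card E : ℤ) -
        Nat.card {x : E × E // x.2 ^ 2 = x.1 * (x.1 - 9 * D) * (x.1 - 25 * D)} =
      - T (cb (D : ZMod p)) (Module.finrank (ZMod p) E) := by
    intro E _ _ _ _
    have hE : ringChar E ≠ 2 := by
      rwa [← Algebra.ringChar_eq (ZMod p) E]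
    rw [card_points hE (fun x => x * (x - 9 * (D : E)) * (x - 25 * (D : E))), T_eq_sum (E := E) hF]
    have : ∀ x : E, aeval x (cb (D : ZMod p)) = x * (x - 9 * (D : E)) * (x - 25 * (D : E)) := by
      intro x
      rw [aeval_cb, map_intCast]
    simp_rw [this]
    ring
  have h1 := key (E := ZMod p)
  rw [Module.finrank_self, ZMod.card] at h1
  rw [key (E := k), h1]
  have hpos : 0 < Module.finrank (ZMod p) k := Module.finrank_pos
  obtain ⟨n, hn⟩ := Nat.exists_eq_succ_of_ne_zero hpos.ne'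
  rw [hn, Nat.succ_eq_add_one, T_luc hF (cb_deg _) (cb_monic _) n, A_cb hF _ hd h15, ZMod.card]
  ring

/-- the prime field -/
lemma ap_prime {p : ℕ} [Fact p.Prime] (W : WeierstrassCurve ℤ) (k : Type) [Field k] [Fintype k]
    [Algebra (ZMod p) k] (hk : Fintype.card k = p) :
    Nat.card (AP (W.map (Int.castRingHom k))) = affCount W p := by
  have hb : Function.Bijective (algebraMap (ZMod p) k) := by
    rw [Fintype.bijective_iff_injective_and_card]
    exact ⟨(algebraMap (ZMod p) k).injective, by rw [ZMod.card, hk]⟩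
  have e1 : W.map (Int.castRingHom k) =
      (W.map (Int.castRingHom (ZMod p))).map (algebraMap (ZMod p) k) := by
    rw [WeierstrassCurve.map_map]
    congr 1
    exact RingHom.ext_int _ _
  unfold affCount AP
  rw [e1]
  have hm : ∀ Q : {P : ZMod p × ZMod p //
      (W.map (Int.castRingHom (ZMod p))).toAffine.Equation P.1 P.2},
      ((W.map (Int.castRingHom (ZMod p))).map (algebraMap (ZMod p) k)).toAffine.Equation
        (algebraMap (ZMod p) k Q.1.1) (algebraMap (ZMod p) k Q.1.2) := fun Q =>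
    (WeierstrassCurve.Affine.map_equation _ (algebraMap (ZMod p) k).injective _ _).2 Q.2
  refine (Nat.card_congr (Equiv.ofBijective
    (fun Q => ⟨(algebraMap (ZMod p) k Q.1.1, algebraMap (ZMod p) k Q.1.2), hm Q⟩) ⟨?_, ?_⟩)).symm
  · intro Q Q' h
    have h1 := congrArg Subtype.val h
    simp only [Prod.mk.injEq] at h1
    exact Subtype.ext (Prod.ext (hb.1 h1.1) (hb.1 h1.2))
  · rintro ⟨⟨x, y⟩, h⟩
    obtain ⟨x', rfl⟩ := hb.2 x
    obtain ⟨y', rfl⟩ := hb.2 y
    exact ⟨⟨(x', y'), (WeierstrassCurve.Affine.map_equation _ (algebraMap (ZMod p) k).injective _ _).1 h⟩,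
      rfl⟩

/-- the multiplication of the field with four elements -/
def m2 (u v : ZMod 2 × ZMod 2) : ZMod 2 × ZMod 2 :=
  (u.1 * v.1 + u.2 * v.2, u.1 * v.2 + u.2 * v.1 + u.2 * v.2)

lemma four (k : Type) [Field k] [Fintype k] [Algebra (ZMod 2) k] (hk : Fintype.card k = 4)
    (a b c : ZMod 2) :
    Nat.card {P : k × k // P.2 ^ 2 + P.1 * P.2 + P.2 = P.1 ^ 3 + algebraMap (ZMod 2) k a * P.1 ^ 2 -
      algebraMap (ZMod 2) k b * P.1 - algebraMap (ZMod 2) k c} =
    Fintype.card {P : (ZMod 2 × ZMod 2) × (ZMod 2 × ZMod 2) //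
      m2 P.2 P.2 + m2 P.1 P.2 + P.2 = m2 P.1 (m2 P.1 P.1) + m2 (a, 0) (m2 P.1 P.1) -
      m2 (b, 0) P.1 - (c, 0)} := by
  classical
  obtain ⟨w, hw0, hw1⟩ : ∃ w : k, w ≠ 0 ∧ w ≠ 1 := by
    by_contra hcon
    push Not at hcon
    have h1 : (Finset.univ : Finset k) ⊆ {0, 1} := by
      intro x _
      rw [Finset.mem_insert, Finset.mem_singleton]
      by_cases hx : x = 0
      · exact Or.inl hx
      · exact Or.inr (hcon x hx)
    have h2 := (Finset.card_le_card h1).trans Finset.card_le_two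
    rw [Finset.card_univ, hk] at h2
    omega
  have hw : w ^ 2 + w + 1 = 0 := by
    have h1 := FiniteField.pow_card_sub_one_eq_one w hw0
    rw [hk] at h1
    have h2 : (w - 1) * (w ^ 2 + w + 1) = 0 := by
      have : w ^ 3 = 1 := h1
      linear_combination this
    rcases mul_eq_zero.1 h2 with h3 | h3
    · exact absurd (sub_eq_zero.1 h3) hw1
    · exact h3
  have htwo : (2 : k) = 0 := by
    have : algebraMap (ZMod 2) k 2 = 2 := map_ofNat _ 2
    rw [← this, show (2 : ZMod 2) = 0 by rfl, map_zero]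
  obtain ⟨φ, hφ⟩ : ∃ φ : ZMod 2 × ZMod 2 → k, ∀ u, φ u =
      algebraMap (ZMod 2) k u.1 + algebraMap (ZMod 2) k u.2 * w := ⟨_, fun _ => rfl⟩
  have hadd : ∀ u v, φ (u + v) = φ u + φ v := by
    intro u v
    rw [hφ, hφ, hφ, Prod.fst_add, Prod.snd_add, map_add, map_add]
    ring
  have hsub : ∀ u v, φ (u - v) = φ u - φ v := by
    intro u v
    rw [hφ, hφ, hφ, Prod.fst_sub, Prod.snd_sub, map_sub, map_sub]
    ring
  have hmul : ∀ u v, φ (m2 u v) = φ u * φ v := by
    intro u v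
    unfold m2
    rw [hφ, hφ, hφ]
    simp only [map_add, map_mul]
    linear_combination (-(algebraMap (ZMod 2) k u.2 * algebraMap (ZMod 2) k v.2)) * hw +
      (algebraMap (ZMod 2) k u.2 * algebraMap (ZMod 2) k v.2 * (1 + w)) * htwo
  have hc : ∀ a : ZMod 2, φ (a, 0) = algebraMap (ZMod 2) k a := by
    intro a
    rw [hφ, map_zero, zero_mul, add_zero]
  have hinj : Function.Injective φ := by
    have h0 : ∀ u, φ u = 0 → u = 0 := by
      intro u hu
      rw [hφ] at hu
      obtain ⟨x, y⟩ := u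
      have hz : ∀ z : ZMod 2, z = 0 ∨ z = 1 := by decide
      simp only at hu
      rcases hz x with rfl | rfl <;> rcases hz y with rfl | rfl
      · rfl
      · exfalso
        apply hw0
        rw [map_zero, map_one, one_mul, zero_add] at hu
        exact hu
      · exfalso
        rw [map_zero, map_one, zero_mul, add_zero] at hu
        exact one_ne_zero hu
      · exfalso
        apply hw1
        rw [map_one, one_mul] at hu
        linear_combination hu - htwo
    intro u v h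
    have h1 : φ (u - v) = 0 := by rw [hsub, h, sub_self]
    exact sub_eq_zero.1 (h0 _ h1)
  have hb : Function.Bijective φ := by
    rw [Fintype.bijective_iff_injective_and_card]
    refine ⟨hinj, ?_⟩
    rw [Fintype.card_prod, ZMod.card, hk]
  rw [← Nat.card_eq_fintype_card]
  have hiff : ∀ u v : ZMod 2 × ZMod 2, (m2 v v + m2 u v + v = m2 u (m2 u u) +
      m2 (a, 0) (m2 u u) - m2 (b, 0) u - (c, 0)) ↔
      φ v ^ 2 + φ u * φ v + φ v = φ u ^ 3 + algebraMap (ZMod 2) k a * φ u ^ 2 -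
      algebraMap (ZMod 2) k b * φ u - algebraMap (ZMod 2) k c := by
    intro u v
    rw [← hinj.eq_iff]
    simp only [hadd, hsub, hmul, hc]
    rw [show φ u * (φ u * φ u) = φ u ^ 3 by ring, show φ u * φ u = φ u ^ 2 by ring,
      show φ v * φ v = φ v ^ 2 by ring]
  refine (Nat.card_congr (Equiv.ofBijective
    (fun Q => ⟨(φ Q.1.1, φ Q.1.2), (hiff _ _).1 Q.2⟩) ⟨?_, ?_⟩)).symm
  · intro Q Q' h
    have h1 := congrArg Subtype.val h
    simp only [Prod.mk.injEq] at h1
    exact Subtype.ext (Prod.ext (hinj h1.1) (hinj h1.2))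
  · rintro ⟨⟨x, y⟩, h⟩
    obtain ⟨x', rfl⟩ := hb.2 x
    obtain ⟨y', rfl⟩ := hb.2 y
    exact ⟨⟨(x', y'), (hiff _ _).2 h⟩, rfl⟩

lemma seven1 : Fintype.card {P : (ZMod 2 × ZMod 2) × (ZMod 2 × ZMod 2) //
      m2 P.2 P.2 + m2 P.1 P.2 + P.2 = m2 P.1 (m2 P.1 P.1) + m2 (1, 0) (m2 P.1 P.1) -
      m2 (0, 0) P.1 - (0, 0)} = 7 := by
  decide

lemma seven2 : Fintype.card {P : (ZMod 2 × ZMod 2) × (ZMod 2 × ZMod 2) //
      m2 P.2 P.2 + m2 P.1 P.2 + P.2 = m2 P.1 (m2 P.1 P.1) + m2 (0, 0) (m2 P.1 P.1) -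
      m2 (0, 0) P.1 - (1, 0)} = 7 := by
  decide

lemma coef2 {D : ℤ} (hD : D % 4 = 1) :
    ((((5 * D - 1) / 4 : ℤ) : ZMod 2) = 1 ∧ (((19 * D ^ 2 + 1) / 2 : ℤ) : ZMod 2) = 0 ∧
      (((39 * D ^ 3 + 1) / 4 : ℤ) : ZMod 2) = 0) ∨
    ((((5 * D - 1) / 4 : ℤ) : ZMod 2) = 0 ∧ (((19 * D ^ 2 + 1) / 2 : ℤ) : ZMod 2) = 0 ∧
      (((39 * D ^ 3 + 1) / 4 : ℤ) : ZMod 2) = 1) := by
  have h8 : D % 8 = 1 ∨ D % 8 = 5 := by omega
  have hz : (2 : ZMod 2) = 0 := rfl
  rcases h8 with h8 | h8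
  · left
    obtain ⟨m, rfl⟩ : ∃ m, D = 8 * m + 1 := ⟨D / 8, by omega⟩
    refine ⟨?_, ?_, ?_⟩
    · have e : (5 * (8 * m + 1) - 1) / 4 = 2 * (5 * m) + 1 := by omega
      rw [e]
      push_cast
      rw [hz]
      ring
    · have e : (19 * (8 * m + 1) ^ 2 + 1) / 2 = 2 * (304 * m ^ 2 + 76 * m + 5) := by
        rw [show 19 * (8 * m + 1) ^ 2 + 1 = 2 * (2 * (304 * m ^ 2 + 76 * m + 5)) by ring]
        omega
      rw [e]
      push_cast
      rw [hz]
      ring
    · have e : (39 * (8 * m + 1) ^ 3 + 1) / 4 =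
          2 * (39 * (64 * m ^ 3 + 24 * m ^ 2 + 3 * m) + 5) := by
        rw [show 39 * (8 * m + 1) ^ 3 + 1 =
          4 * (2 * (39 * (64 * m ^ 3 + 24 * m ^ 2 + 3 * m) + 5)) by ring]
        omega
      rw [e]
      push_cast
      rw [hz]
      ring
  · right
    obtain ⟨m, rfl⟩ : ∃ m, D = 8 * m + 5 := ⟨D / 8, by omega⟩
    refine ⟨?_, ?_, ?_⟩
    · have e : (5 * (8 * m + 5) - 1) / 4 = 2 * (5 * m + 3) := by omega
      rw [e]
      push_cast
      rw [hz]
      ring
    · have e : (19 * (8 * m + 5) ^ 2 + 1) / 2 = 2 * (304 * m ^ 2 + 380 * m + 119) := by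
        rw [show 19 * (8 * m + 5) ^ 2 + 1 = 2 * (2 * (304 * m ^ 2 + 380 * m + 119)) by ring]
        omega
      rw [e]
      push_cast
      rw [hz]
      ring
    · have e : (39 * (8 * m + 5) ^ 3 + 1) / 4 =
          2 * (39 * (64 * m ^ 3 + 120 * m ^ 2 + 75 * m) + 609) + 1 := by
        rw [show 39 * (8 * m + 5) ^ 3 + 1 =
          4 * (2 * (39 * (64 * m ^ 3 + 120 * m ^ 2 + 75 * m) + 609) + 1) by ring]
        omega
      rw [e]
      push_cast
      rw [hz]
      ring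

lemma ap_two (D : ℤ) : affCount (WT D) 2 = Nat.card {P : ZMod 2 × ZMod 2 //
    P.2 ^ 2 + P.1 * P.2 + P.2 = P.1 ^ 3 + (((5 * D - 1) / 4 : ℤ) : ZMod 2) * P.1 ^ 2 -
    (((19 * D ^ 2 + 1) / 2 : ℤ) : ZMod 2) * P.1 - (((39 * D ^ 3 + 1) / 4 : ℤ) : ZMod 2)} := by
  unfold affCount
  refine Nat.card_congr (Equiv.subtypeEquivRight fun P => ?_)
  exact equation_iff D (ZMod 2) P.1 P.2

/-- the field with four elements -/
lemma cnt_four (k : Type) [Field k] [Fintype k] [Algebra (ZMod 2) k] (hk : Fintype.card k = 4)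
    {D : ℤ} (hD : D % 4 = 1) :
    (4 : ℤ) - Nat.card (AP ((WT D).map (Int.castRingHom k))) = luc (ap (WT D) 2) 2 2 := by
  have h1 : Nat.card (AP ((WT D).map (Int.castRingHom k))) =
      Nat.card {P : k × k // P.2 ^ 2 + P.1 * P.2 + P.2 = P.1 ^ 3 +
      algebraMap (ZMod 2) k (((5 * D - 1) / 4 : ℤ) : ZMod 2) * P.1 ^ 2 -
      algebraMap (ZMod 2) k (((19 * D ^ 2 + 1) / 2 : ℤ) : ZMod 2) * P.1 -
      algebraMap (ZMod 2) k (((39 * D ^ 3 + 1) / 4 : ℤ) : ZMod 2)} := by
    unfold AP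
    refine Nat.card_congr (Equiv.subtypeEquivRight fun P => ?_)
    rw [equation_iff D k P.1 P.2, map_intCast, map_intCast, map_intCast]
  rw [h1]
  unfold ap
  rw [ap_two]
  rcases coef2 hD with ⟨a1, a2, a3⟩ | ⟨a1, a2, a3⟩
  · rw [a1, a2, a3, four k hk, seven1, three_pts]
    norm_num [luc]
  · rw [a1, a2, a3, four k hk, seven2, one_pt]
    norm_num [luc]

/-- **CNT** -/
theorem t_CNT : Run7.h428.NF.S_CNT := by
  intro k _ _ p f D hp hk hf1 hf2 hD4 hD
  have hpF : Fact p.Prime := ⟨hp⟩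
  let _ : Fintype k := Fintype.ofFinite k
  have hk' : Fintype.card k = p ^ f := by rw [← Nat.card_eq_fintype_card, hk]
  have hchar : CharP k p := by
    obtain ⟨q, hq⟩ := CharP.exists k
    have hqF : Fact q.Prime := ⟨CharP.char_is_prime k q⟩
    obtain ⟨n, _, hn⟩ := FiniteField.card k q
    have h1 : p ∣ q ^ (n : ℕ) := by
      rw [← hn, hk']
      exact dvd_pow_self p (by omega)
    have h2 : p = q := (Nat.prime_dvd_prime_iff_eq hp hqF.out).1 (hp.dvd_of_dvd_pow h1)
    rw [h2]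
    exact hq
  let _ : Algebra (ZMod p) k := ZMod.algebra k p
  have hfr : Module.finrank (ZMod p) k = f := by
    have h1 := Module.card_eq_pow_finrank (K := ZMod p) (V := k)
    rw [hk', ZMod.card] at h1
    exact (Nat.pow_right_injective hp.two_le h1).symm
  by_cases hp2 : p = 2
  · subst hp2
    have hf : f = 1 ∨ f = 2 := by omega
    rcases hf with rfl | rfl
    · rw [ap_prime (p := 2) (WT D) k (by rw [hk', pow_one]), hk, pow_one]
      rfl
    · have h1 := cnt_four k (by rw [hk']; norm_num) hD4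
      rw [hk]
      push_cast
      norm_num
      exact h1
  · have h2k : (2 : k) ≠ 0 := by
      intro h
      have h1 : ((2 : ℕ) : k) = 0 := by exact_mod_cast h
      rw [CharP.cast_eq_zero_iff k p] at h1
      exact hp2 ((Nat.prime_dvd_prime_iff_eq hp Nat.prime_two).1 h1)
    have h1 := cnt_odd hp2 D hD (k := k)
    rw [hfr] at h1
    have e1 : Nat.card (AP ((WT D).map (Int.castRingHom k))) =
        Nat.card {x : k × k // x.2 ^ 2 = x.1 * (x.1 - 9 * D) * (x.1 - 25 * D)} :=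
      pts_cubic hD4 k h2k
    have e2 : ap (WT D) p = (p : ℤ) - Nat.card {x : ZMod p × ZMod p //
        x.2 ^ 2 = x.1 * (x.1 - 9 * D) * (x.1 - 25 * D)} := by
      unfold ap affCount
      rw [pts_cubic hD4 (ZMod p) (Run7.h555.P15.two_ne hp2)]
    rw [e1, e2, Nat.card_eq_fintype_card]
    exact h1

end Run7.h803.NF
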