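import Pool.Agent.Run7.h428.NF.Stm

/-!
# Project NF15, piece GOOD: the places of good reduction
-/

set_option autoImplicit false
set_option linter.unusedSectionVars false
set_option linter.unusedVariables false

namespace Run7.h803.NF

open NumberField IsDedekindDomain WeierstrassCurve
open Pool.Agent.W97.MT (ap)
open Pool.Agent.W189.NF (aV eV aLoc eLoc Ov card_res finite_res)
open Pool.Agent.H921R2.TatePole (below deg nm nm_eq)
open Pool.Agent.H82R3.EK (luc)
open Pool.Agent.Y698 (AP)
open Run7.h555.P15 (WT)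
open Run7.h428.NF (EF)

/-- the discriminant -/
lemma WT_disc {D : ℤ} (hD : D % 4 = 1) : (WT D).Δ = 15 ^ 4 * D ^ 6 := by
  obtain ⟨m, rfl⟩ : ∃ m, D = 4 * m + 1 := ⟨D / 4, by omega⟩
  have e1 : (5 * (4 * m + 1) - 1) / 4 = 5 * m + 1 := by omega
  have e2 : (19 * (4 * m + 1) ^ 2 + 1) / 2 = 152 * m ^ 2 + 76 * m + 10 := by
    rw [show 19 * (4 * m + 1) ^ 2 + 1 = 2 * (152 * m ^ 2 + 76 * m + 10) by ring]
    omega
  have e3 : (39 * (4 * m + 1) ^ 3 + 1) / 4 = 39 * (16 * m ^ 3 + 12 * m ^ 2 + 3 * m) + 10 := by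
    rw [show 39 * (4 * m + 1) ^ 3 + 1 = 4 * (39 * (16 * m ^ 3 + 12 * m ^ 2 + 3 * m) + 10) by ring]
    omega
  unfold WT
  rw [e1, e2, e3]
  simp only [WeierstrassCurve.Δ, WeierstrassCurve.b₂, WeierstrassCurve.b₄, WeierstrassCurve.b₆,
    WeierstrassCurve.b₈]
  ring

section
variable {F : Type} [Field F] [NumberField F]

lemma card_rf (v : HeightOneSpectrum (𝓞 F)) :
    Nat.card (IsLocalRing.ResidueField (Ov v)) = (below v : ℕ) ^ deg v := by
  rw [← (nm_eq v).1]
  exact card_res v

/-- the integers prime to the residue characteristic -/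
lemma unit_int (v : HeightOneSpectrum (𝓞 F)) {z : ℤ} (h : ¬ ((below v : ℕ) : ℤ) ∣ z) :
    IsUnit ((z : ℤ) : Ov v) := by
  by_contra hcon
  have h1 : IsLocalRing.residue (Ov v) ((z : ℤ) : Ov v) = 0 :=
    (IsLocalRing.residue_eq_zero_iff _).2 ((IsLocalRing.mem_maximalIdeal _).2 hcon)
  rw [map_intCast] at h1
  have hfin := finite_res v
  have h2 : ((below v : ℕ) : IsLocalRing.ResidueField (Ov v)) = 0 := by
    have h2 : ((Nat.card (IsLocalRing.ResidueField (Ov v)) : ℕ) :
        IsLocalRing.ResidueField (Ov v)) = 0 := by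
      have := Fintype.ofFinite (IsLocalRing.ResidueField (Ov v))
      rw [Nat.card_eq_fintype_card]
      exact Nat.cast_card_eq_zero _
    rw [card_rf v] at h2
    push_cast at h2
    exact (pow_eq_zero_iff (nm_eq v).2.1.ne').1 h2
  have hcop : IsCoprime ((below v : ℕ) : ℤ) z :=
    (Prime.coprime_iff_not_dvd (Nat.prime_iff_prime_int.1 (below v).2)).2 h
  obtain ⟨s, t, hst⟩ := hcop
  have h3 := congrArg (fun z : ℤ => (z : IsLocalRing.ResidueField (Ov v))) hst
  push_cast at h3
  rw [h1, h2, mul_zero, mul_zero, add_zero] at h3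
  exact zero_ne_one h3

end

/-- **GOOD** -/
theorem t_GOOD : Run7.h428.NF.S_GOOD := by
  intro hC F _ _ v D W C hD hv hdeg hW
  have hfin := finite_res v
  have hΔ : IsUnit ((WT D).map (Int.castRingHom (Ov v))).Δ := by
    rw [map_Δ, WT_disc hD]
    have hp : Prime (((below v : ℕ) : ℤ)) := Nat.prime_iff_prime_int.1 (below v).2
    have h1 : ¬ ((below v : ℕ) : ℤ) ∣ 15 ^ 4 * D ^ 6 := by
      intro h
      rcases hp.dvd_or_dvd h with h | h
      · exact hv ((hp.dvd_of_dvd_pow h).mul_right D)
      · exact hv ((hp.dvd_of_dvd_pow h).mul_left 15)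
    exact unit_int v h1
  have hC' : (C.map (algebraMap F (v.adicCompletion F))) • (W.baseChange (v.adicCompletion F)) =
      ((WT D).map (Int.castRingHom (Ov v))).map (algebraMap (Ov v) (v.adicCompletion F)) := by
    have h1 : (C.map (algebraMap F (v.adicCompletion F))) • (W.baseChange (v.adicCompletion F)) =
        (C • W).map (algebraMap F (v.adicCompletion F)) := by
      unfold WeierstrassCurve.baseChange
      rw [WeierstrassCurve.map_variableChange]
    rw [h1, hW, WeierstrassCurve.map_map, WeierstrassCurve.map_map]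
    congr 1
    exact RingHom.ext_int _ _
  obtain ⟨a1, a2⟩ := Run7.h359.FE.min_count' (v.adicCompletionIntegers F) hΔ hC'
  have h1 : ((WT D).map (Int.castRingHom (Ov v))).map (IsLocalRing.residue (Ov v)) =
      (WT D).map (Int.castRingHom (IsLocalRing.ResidueField (Ov v))) := by
    rw [WeierstrassCurve.map_map]
    congr 1
  have hcard := card_rf v
  have h2 := hC (IsLocalRing.ResidueField (Ov v)) (below v : ℕ) (deg v) D (below v).2 hcard
    (nm_eq v).2.1 hdeg hD hv
  constructor
  · unfold aV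
    rw [a1]
    rw [← h2, ← h1]
  · unfold eV
    rw [a2]
    have h3 : Nat.card (IsLocalRing.ResidueField (v.adicCompletionIntegers F)) =
      (below v : ℕ) ^ deg v := hcard
    rw [h3]
    push_cast
    rfl

end Run7.h803.NF
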